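import Pool.Agent.H193.UV.Stm

/-!
# Blocks in the algebra generated by a weighted and an unweighted shift
-/

set_option autoImplicit false

namespace Pool.Agent.H66.UV_A

open Pool.Agent.H193.UV

variable {k : Type} [Field k] {Ω : Type}

theorem Jn_single (n : ℕ) (v : Ω) (a : k) :
    Jn n (Finsupp.single v a) = Finsupp.single (n, v) a := by
  simp [Jn]

theorem sY_Jn (n : ℕ) (u : Ω →₀ k) : sY k Ω (Jn n u) = Jn (n + 1) u := by
  induction u using Finsupp.induction_linear with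
  | zero => simp
  | add f g hf hg => simp [hf, hg]
  | single v a => rw [Jn_single, Jn_single]; simp [sY]

theorem wX_Jn_zero (w : ℕ → OpI k Ω) (u : Ω →₀ k) : wX w (Jn 0 u) = 0 := by
  induction u using Finsupp.induction_linear with
  | zero => simp
  | add f g hf hg => simp [hf, hg]
  | single v a => rw [Jn_single]; simp [wX]

theorem wX_Jn_succ (w : ℕ → OpI k Ω) (n : ℕ) (u : Ω →₀ k) :
    wX w (Jn (n + 1) u) = Jn n (w n u) := by
  induction u using Finsupp.induction_linear with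
  | zero => simp
  | add f g hf hg => simp [hf, hg]
  | single v a =>
    have h : Finsupp.single v a = a • Finsupp.single v (1 : k) := by simp
    rw [h, map_smul, map_smul, map_smul, map_smul, Jn_single]
    congr 1
    simp [wX]

theorem Qn_Jn (m n : ℕ) (u : Ω →₀ k) : Qn m (Jn n u) = if m = n then u else 0 := by
  ext v
  have h1 : Qn m (Jn n u) v = (Finsupp.mapDomain (fun v => (n, v)) u) (m, v) := rfl
  rw [h1]
  split_ifs with h
  · subst h
    exact Finsupp.mapDomain_apply (fun _ _ h => (Prod.ext_iff.1 h).2) u v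
  · rw [Finsupp.mapDomain_of_notMem_range]
    · rfl
    · rintro ⟨x, hx⟩
      exact h (Prod.ext_iff.1 hx).1.symm

theorem op_ext {A B : OpI k (ℕ × Ω)} (h : ∀ n (u : Ω →₀ k), A (Jn n u) = B (Jn n u)) :
    A = B := by
  apply Finsupp.lhom_ext
  rintro ⟨n, v⟩ a
  rw [← Jn_single]
  exact h n _

/-- `w 0 * … * w (n - 1)` -/
noncomputable def pp (w : ℕ → OpI k Ω) : ℕ → OpI k Ω
  | 0 => 1
  | n + 1 => pp w n * w n

/-- `w (n - 1) * … * w 0` -/
noncomputable def qq (w : ℕ → OpI k Ω) : ℕ → OpI k Ω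
  | 0 => 1
  | n + 1 => w n * qq w n

theorem qp {w : ℕ → OpI k Ω} (hw : ∀ n, w n * w n = 1) (n : ℕ) : qq w n * pp w n = 1 := by
  induction n with
  | zero => simp [pp, qq]
  | succ n ih =>
    calc qq w (n + 1) * pp w (n + 1) = w n * (qq w n * pp w n) * w n := by
          simp only [pp, qq, mul_assoc]
      _ = 1 := by rw [ih, mul_one, hw]

theorem blk_Jn (n m : ℕ) (T : OpI k Ω) (j : ℕ) (u : Ω →₀ k) :
    blk n m T (Jn j u) = if m = j then Jn n (T u) else 0 := by
  have h : blk n m T (Jn j u) = Jn n (T (Qn m (Jn j u))) := rfl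
  rw [h, Qn_Jn]
  split_ifs <;> simp

theorem blk_mul (a b c : ℕ) (S T : OpI k Ω) : blk a b S * blk b c T = blk a c (S * T) := by
  apply op_ext
  intro j u
  rw [Module.End.mul_apply, blk_Jn, blk_Jn]
  split_ifs with h
  · rw [blk_Jn, if_pos rfl]
    rfl
  · simp

theorem sY_pow_Jn (n m : ℕ) (u : Ω →₀ k) : ((sY k Ω) ^ n) (Jn m u) = Jn (m + n) u := by
  induction n generalizing m with
  | zero => simp
  | succ n ih =>
    rw [pow_succ, Module.End.mul_apply, sY_Jn, ih, add_assoc, add_comm 1 n]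

theorem sY_pow_blk (n m : ℕ) (T : OpI k Ω) : (sY k Ω) ^ n * blk 0 m T = blk n m T := by
  apply op_ext
  intro j u
  rw [Module.End.mul_apply, blk_Jn, blk_Jn]
  split_ifs with h
  · rw [sY_pow_Jn, zero_add]
  · simp

theorem Q_wX (w : ℕ → OpI k Ω) (m j : ℕ) (u : Ω →₀ k) :
    Qn 0 (((wX w) ^ m) (Jn j u)) = if j = m then pp w m u else 0 := by
  induction m generalizing j u with
  | zero =>
    rw [pow_zero, Module.End.one_apply, Qn_Jn]
    by_cases h : j = 0
    · simp [h, pp]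
    · rw [if_neg h, if_neg (fun h' => h h'.symm)]
  | succ m ih =>
    rw [pow_succ, Module.End.mul_apply]
    rcases j with _ | j
    · rw [wX_Jn_zero, map_zero, map_zero, if_neg (by omega)]
    · rw [wX_Jn_succ, ih]
      by_cases h : j = m
      · subst h
        rw [if_pos rfl, if_pos rfl]
        rfl
      · rw [if_neg h, if_neg (by omega)]

theorem blk_wX (w : ℕ → OpI k Ω) (m : ℕ) (S : OpI k Ω) :
    blk 0 0 S * (wX w) ^ m = blk 0 m (S * pp w m) := by
  apply op_ext
  intro j u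
  have h : (blk 0 0 S * (wX w) ^ m) (Jn j u) = Jn 0 (S (Qn 0 (((wX w) ^ m) (Jn j u)))) := rfl
  rw [h, Q_wX, blk_Jn]
  by_cases h : j = m
  · rw [if_pos h, if_pos h.symm]
    rfl
  · rw [if_neg h, if_neg (fun h' => h h'.symm), map_zero, map_zero]

theorem blk_one (w : ℕ → OpI k Ω) (hw : ∀ n, w n * w n = 1) :
    blk 0 0 (1 : OpI k Ω) = 1 - (sY k Ω * wX w) ^ 2 := by
  apply op_ext
  intro j u
  rw [blk_Jn, LinearMap.sub_apply, pow_two, Module.End.mul_apply, Module.End.mul_apply,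
    Module.End.mul_apply, Module.End.one_apply]
  rcases j with _ | j
  · rw [if_pos rfl, wX_Jn_zero, map_zero, map_zero, map_zero, sub_zero]
    rfl
  · rw [if_neg (by omega), wX_Jn_succ, sY_Jn, wX_Jn_succ, sY_Jn]
    have h : w j (w j u) = u := by
      rw [← Module.End.mul_apply, hw j, Module.End.one_apply]
    rw [h, Module.End.one_apply, sub_self]

theorem s_A : S_A := by
  intro k _ Ω w hw
  have hX : ((wX w, (1 : k)) : BigI k (ℕ × Ω)) ∈ SS w :=
    Algebra.subset_adjoin (Set.mem_insert _ _)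
  have hY : ((sY k Ω, (1 : k)) : BigI k (ℕ × Ω)) ∈ SS w :=
    Algebra.subset_adjoin (Set.mem_insert_of_mem _ rfl)
  have hXn : ∀ n : ℕ, (((wX w) ^ n, (1 : k)) : BigI k (ℕ × Ω)) ∈ SS w := by
    intro n
    have h := pow_mem hX n
    have e : ((wX w, (1 : k)) : BigI k (ℕ × Ω)) ^ n = ((wX w) ^ n, (1 : k)) :=
      Prod.ext rfl (one_pow n)
    rwa [e] at h
  have hYn : ∀ n : ℕ, (((sY k Ω) ^ n, (1 : k)) : BigI k (ℕ × Ω)) ∈ SS w := by
    intro n
    have h := pow_mem hY n
    have e : ((sY k Ω, (1 : k)) : BigI k (ℕ × Ω)) ^ n = ((sY k Ω) ^ n, (1 : k)) :=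
      Prod.ext rfl (one_pow n)
    rwa [e] at h
  have hZ : ((blk 0 0 (1 : OpI k Ω), (0 : k)) : BigI k (ℕ × Ω)) ∈ SS w := by
    have e : ((blk 0 0 (1 : OpI k Ω), (0 : k)) : BigI k (ℕ × Ω)) =
        1 - (((sY k Ω, (1 : k)) : BigI k (ℕ × Ω)) * (wX w, (1 : k))) ^ 2 := by
      refine Prod.ext (blk_one w hw) ?_
      change (0 : k) = 1 - (1 * 1) ^ 2
      ring
    rw [e]
    exact sub_mem (one_mem _) (pow_mem (mul_mem hY hX) 2)
  have hmul : ∀ (A B : OpI k (ℕ × Ω)) (a b c : k), a * b = c →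
      ((A, a) : BigI k (ℕ × Ω)) ∈ SS w → ((B, b) : BigI k (ℕ × Ω)) ∈ SS w →
      ((A * B, c) : BigI k (ℕ × Ω)) ∈ SS w := by
    intro A B a b c h hA hB
    have := mul_mem hA hB
    rw [Prod.mk_mul_mk, h] at this
    exact this
  -- the sandwich
  have hpp : ∀ n : ℕ, ((blk 0 0 (pp w n), (0 : k)) : BigI k (ℕ × Ω)) ∈ SS w := by
    intro n
    have h1 := hmul _ _ 0 1 0 (zero_mul _) hZ (hXn n)
    have h2 := hmul _ _ 1 0 0 (mul_zero _) (hYn n) hZ
    have h3 := hmul _ _ 0 0 0 (zero_mul _) h1 h2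
    rwa [blk_wX, sY_pow_blk, blk_mul, one_mul, mul_one] at h3
  have hqq : ∀ n : ℕ, ((blk 0 0 (qq w n), (0 : k)) : BigI k (ℕ × Ω)) ∈ SS w ∧
      ((blk 0 0 (w n), (0 : k)) : BigI k (ℕ × Ω)) ∈ SS w := by
    intro n
    have step : ((blk 0 0 (qq w n), (0 : k)) : BigI k (ℕ × Ω)) ∈ SS w →
        ((blk 0 0 (w n), (0 : k)) : BigI k (ℕ × Ω)) ∈ SS w := by
      intro h
      have h1 := hmul _ _ 0 0 0 (zero_mul _) h (hpp (n + 1))
      rw [blk_mul] at h1
      have e : qq w n * pp w (n + 1) = w n := by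
        change qq w n * (pp w n * w n) = w n
        rw [← mul_assoc, qp hw, one_mul]
      rwa [e] at h1
    have hq : ((blk 0 0 (qq w n), (0 : k)) : BigI k (ℕ × Ω)) ∈ SS w := by
      clear step
      induction n with
      | zero => exact hZ
      | succ n ih =>
        have h1 := hmul _ _ 0 0 0 (zero_mul _) ih (hpp (n + 1))
        rw [blk_mul] at h1
        have e : qq w n * pp w (n + 1) = w n := by
          change qq w n * (pp w n * w n) = w n
          rw [← mul_assoc, qp hw, one_mul]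
        rw [e] at h1
        have h2 := hmul _ _ 0 0 0 (zero_mul _) h1 ih
        rw [blk_mul] at h2
        exact h2
    exact ⟨hq, step hq⟩
  refine ⟨fun n => (hqq n).2, fun T hT n m => ?_⟩
  have h1 := hmul _ _ 0 0 0 (zero_mul _) hT (hqq m).1
  rw [blk_mul] at h1
  have h2 := hmul _ _ 0 1 0 (zero_mul _) h1 (hXn m)
  rw [blk_wX, mul_assoc, qp hw, mul_one] at h2
  have h3 := hmul _ _ 1 0 0 (mul_zero _) (hYn n) h2
  rwa [sY_pow_blk] at h3

end Pool.Agent.H66.UV_A
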